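import Pool.Agent.Lib.MP_65847d_pr.Radial

/-!
The threshold for surjective homomorphisms from `G(n, p)` onto a graph with a central looped
clique.
-/

set_option autoImplicit false

namespace Pool.Agent.Results.MP_65847d_pr.CentralClique

open Pool.MP_65847d_pr

/-- Let `F` be a finite graph (loops allowed) with edge relation `E`, let `m ≥ 2`, and let `Q` be a
nonempty set of pairwise adjacent looped vertices such that every vertex has a walk with at most `ρ`
steps to `Q`, where `m = 2ρ`, or `m = 2ρ - 1` and `Q` is a single vertex. If some two vertices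
(possibly equal) are not joined by a walk with exactly `m` steps, then `(n log n)^(1/m) / n` is a
threshold for the existence of a surjective homomorphism from `G(n, p)` to `F`. -/
theorem result {V : Type} [Finite V] (E : V → V → Prop) (hE : ∀ a b, E a b → E b a)
    (Q : Set V) (hQne : Q.Nonempty) (hQ : ∀ a ∈ Q, ∀ b ∈ Q, E a b)
    (ρ m : ℕ) (hm2 : 2 ≤ m) (hm : m = 2 * ρ ∨ (m + 1 = 2 * ρ ∧ Q.Subsingleton))
    (hρ : ∀ f, ∃ q ∈ Q, ∃ j ≤ ρ, Walk E j f q) (hmiss : ∃ a b, ¬ Walk E m a b) :
    IsThreshold (fun _ => SurjHom E)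
      (fun n => ((n : ℝ) * Real.log n) ^ (1 / (m : ℝ)) / n) :=
  radial_threshold E hE Q hQne hQ ρ m hm2 hm hρ hmiss

end Pool.Agent.Results.MP_65847d_pr.CentralClique
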