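import Pool.Agent.Lib.MP_65847d_pr.DomFinal

/-!
The threshold for surjective homomorphisms from `G(n, p)` onto a graph with a looped clique in
which every set of less than `s` vertices has a common neighbour.
-/

set_option autoImplicit false

namespace Pool.Agent.Results.MP_65847d_pr.CommonNeighbours

open Pool.MP_65847d_pr

/-- Let `F` be a finite graph (loops allowed) with edge relation `E` and let `s ≥ 1`. Suppose that
there is a set `Q` of pairwise adjacent looped vertices such that every set of less than `s` vertices
of `F` has a common neighbour in `Q`, and that for every set `Q'` of pairwise adjacent looped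
vertices there is a nonempty set `M` of vertices outside `Q'` such that every `c ∈ M` lies in a set
`A` of at most `s` vertices all of whose common neighbours are in `M`. Then `(log n / n)^(1/s)` is a
threshold for the existence of a surjective homomorphism from `G(n, p)` to `F`. -/
theorem result {V : Type} [Finite V] (E : V → V → Prop) (hE : ∀ a b, E a b → E b a)
    (s : ℕ) (hs1 : 1 ≤ s) (Q : Set V) (hQ : ∀ a ∈ Q, ∀ b ∈ Q, E a b)
    (hs : ∀ A : Finset V, A.card < s → ∃ q ∈ Q, ∀ a ∈ A, E a q)
    (hT : ∀ Q' : Set V, (∀ a ∈ Q', ∀ b ∈ Q', E a b) → ∃ M : Set V, M.Nonempty ∧ Disjoint M Q' ∧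
      ∀ c ∈ M, ∃ A : Finset V, c ∈ A ∧ A.card ≤ s ∧ ∀ d, (∀ a ∈ A, E a d) → d ∈ M) :
    IsThreshold (fun _ => SurjHom E) (fun n => (Real.log n / n) ^ (1 / (s : ℝ))) :=
  dom_threshold E hE s hs1 Q hQ hs hT

end Pool.Agent.Results.MP_65847d_pr.CommonNeighbours
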