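import Pool.Agent.Lib.MP_65847d_pr.X.XFinal

/-!
The threshold `p(F)` for the existence of a surjective homomorphism from `G(n, p)` to `F`, for every
finite nonempty graph `F` (loops allowed), up to constant factors: `p(F) = n ^ (-al) * (log n) ^ be` with
rational `al`, `be`, which are read off from a condition on `F` that involves only finitely many forests.
-/

set_option autoImplicit false

open Filter Topology

namespace Pool.Agent.Results.MP_65847d_pr.ExactThreshold

open Pool.MP_65847d_pr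

theorem result :
    ∀ (V : Type) [Fintype V] [Nonempty V] (E : V → V → Prop), (∀ a b, E a b → E b a) →
      (∃ al be : ℚ, 0 ≤ al ∧ 0 ≤ be ∧
        IsThreshold (fun _ => SurjHom E)
          (fun n : ℕ => (n : ℝ) ^ (-(al : ℝ)) * Real.log n ^ (be : ℝ)) ∧
        ((∀ a b, ¬ E a b) → al = 2 ∧ be = 0) ∧
        ((∃ a b, E a b) → ∃ κ0 : ℝ, 0 < κ0 ∧ ∀ κ : ℝ, 0 < κ → κ ≤ κ0 →
          expoFrom E κ = (al : ℝ) - (be : ℝ) * κ)) ∧
      (∀ (κ α : ℝ) (W : V → ℝ), 0 < α → α < 1 → κ ≤ α → (∀ a, 0 ≤ W a ∧ W a ≤ 1) →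
        (∀ w : ℝ, κ ≤ w → ∀ k ≤ (1 + Fintype.card V) ^ (2 ^ Fintype.card V),
          ∀ (K : SimpleGraph (Fin k)) (A : Fin k → Finset V), K.IsAcyclic → Rich α W w K A →
            Colours E W w K A) →
        StableFrom E κ α W) := by
  intro V _ _ E hE
  exact ⟨exact_threshold hE, fun κ α W h0 h1 hκ hW hS => stableFrom_of_bounded hE h0 h1 hκ hW hS⟩

end Pool.Agent.Results.MP_65847d_pr.ExactThreshold
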